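import Mathlib
import Pool.Agent.helper355_cosum.Final

/-! There are sets `X` in `F_2^n` such that neither the complement of `X` nor `X + X` contains a
projective subspace of linear dimension. -/

namespace Pool.Agent.Results.MP_6a62c9_co.SublinearBoth

open Module
open scoped Pointwise

/-- The largest dimension of a projective subspace contained in `X`. -/
noncomputable def omegaDim {n : ℕ} (X : Set (Fin n → ZMod 2)) : ℕ :=
  sSup {d : ℕ | ∃ W : Submodule (ZMod 2) (Fin n → ZMod 2),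
    finrank (ZMod 2) W = d ∧ ∀ x ∈ W, x ≠ 0 → x ∈ X}

/-- The largest dimension of a projective subspace avoiding `X`. -/
noncomputable def alphaDim {n : ℕ} (X : Set (Fin n → ZMod 2)) : ℕ := omegaDim Xᶜ

lemma omegaDim_lt {n : ℕ} {X : Set (Fin n → ZMod 2)} {D : ℕ}
    (h : ∀ W : Submodule (ZMod 2) (Fin n → ZMod 2), (∀ x ∈ W, x ≠ 0 → x ∈ X) →
      finrank (ZMod 2) W < D) : omegaDim X < D := by
  have h0 : 0 < D := by
    have := h ⊥ (fun x hx hx0 => absurd ((Submodule.mem_bot _).mp hx) hx0)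
    omega
  have h1 : omegaDim X ≤ D - 1 := by
    apply csSup_le
    · exact ⟨0, ⊥, by simp, fun x hx hx0 => absurd ((Submodule.mem_bot _).mp hx) hx0⟩
    · rintro d ⟨W, rfl, hW⟩
      have := h W hW
      omega
  omega

lemma omegaDim_le {n : ℕ} (X : Set (Fin n → ZMod 2)) : omegaDim X ≤ n := by
  have h1 : omegaDim X < n + 1 := by
    apply omegaDim_lt
    intro W _
    have := Submodule.finrank_le W
    simp at this
    omega
  omega

lemma natlog_le (n : ℕ) (hn : 1 ≤ n) : (Nat.log 2 n : ℝ) ≤ 1.5 * Real.log n := by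
  have h1 : 2 ^ Nat.log 2 n ≤ n := Nat.pow_log_le_self 2 (by omega)
  have h2 : (2 : ℝ) ^ Nat.log 2 n ≤ n := by exact_mod_cast h1
  have h3 := Real.log_le_log (by positivity) h2
  rw [Real.log_pow] at h3
  have h4 := Real.log_two_gt_d9
  have h5 : (0 : ℝ) ≤ Nat.log 2 n := Nat.cast_nonneg _
  nlinarith

lemma part_one (n : ℕ) (hn : 1 ≤ n) : ∃ X : Set (Fin n → ZMod 2),
    ((max (alphaDim X) (omegaDim (X + X)) : ℕ) : ℝ) ≤
      30000 * (n : ℝ) ^ (4 / 5 : ℝ) * (1 + Real.log n) ^ 2 := by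
  have hn1 : (1 : ℝ) ≤ n := by exact_mod_cast hn
  have hB : (1 : ℝ) ≤ (n : ℝ) ^ (4 / 5 : ℝ) := Real.one_le_rpow hn1 (by norm_num)
  have hlog : 0 ≤ Real.log n := Real.log_nonneg hn1
  set B : ℝ := (n : ℝ) ^ (4 / 5 : ℝ) with hBdef
  set A : ℝ := 1 + Real.log n with hA
  have hA1 : 1 ≤ A := by rw [hA]; linarith
  have hAA : 1 ≤ A ^ 2 := one_le_pow₀ hA1
  have hBA : 1 ≤ B * A ^ 2 := by nlinarith
  by_cases hsmall : n < 243
  · refine ⟨∅, ?_⟩
    have h1 : max (alphaDim (∅ : Set (Fin n → ZMod 2)))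
        (omegaDim ((∅ : Set (Fin n → ZMod 2)) + ∅)) ≤ n :=
      max_le (omegaDim_le _) (omegaDim_le _)
    have h2 : ((max (alphaDim (∅ : Set (Fin n → ZMod 2)))
        (omegaDim ((∅ : Set (Fin n → ZMod 2)) + ∅)) : ℕ) : ℝ) ≤ n := by exact_mod_cast h1
    have h3 : (n : ℝ) < 243 := by exact_mod_cast hsmall
    calc ((max (alphaDim (∅ : Set (Fin n → ZMod 2)))
        (omegaDim ((∅ : Set (Fin n → ZMod 2)) + ∅)) : ℕ) : ℝ) ≤ n := h2
      _ ≤ 30000 * (B * A ^ 2) := by linarith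
      _ = _ := by ring
  · push Not at hsmall
    set q : ℕ := Nat.findGreatest (fun q => q ^ 5 ≤ n) n with hq
    have hqn : q ^ 5 ≤ n := by
      have := Nat.findGreatest_spec (P := fun q => q ^ 5 ≤ n) (m := 0) (Nat.zero_le n) (by simp)
      exact this
    have hq3 : 3 ≤ q := by
      apply Nat.le_findGreatest
      · omega
      · norm_num; omega
    have hq1n : n < (q + 1) ^ 5 := by
      by_contra hc
      push Not at hc
      have h1 : q + 1 ≤ n := by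
        calc q + 1 ≤ (q + 1) ^ 5 := Nat.le_self_pow (by norm_num) _
          _ ≤ n := hc
      have := Nat.le_findGreatest (P := fun q => q ^ 5 ≤ n) h1 hc
      omega
    obtain ⟨X, hX1, hX2⟩ := H355.exists_set hq3 hqn
    refine ⟨X, ?_⟩
    have h1 : alphaDim X < H355.wdim n q := by
      apply omegaDim_lt
      intro W hW
      exact hX1 W hW
    have h2 : omegaDim (X + X) < 1152 * q ^ 4 := omegaDim_lt hX2
    have hqr : (q : ℝ) ^ 5 ≤ n := by exact_mod_cast hqn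
    have hq4 : (q : ℝ) ^ 4 ≤ B := by
      have h3 : ((q : ℝ) ^ 5) ^ (4 / 5 : ℝ) ≤ B := by
        rw [hBdef]
        exact Real.rpow_le_rpow (by positivity) hqr (by norm_num)
      have h4 : ((q : ℝ) ^ 5) ^ (4 / 5 : ℝ) = (q : ℝ) ^ 4 := by
        rw [← Real.rpow_natCast (q : ℝ) 5, ← Real.rpow_mul (Nat.cast_nonneg _),
          ← Real.rpow_natCast (q : ℝ) 4]
        congr 1
        norm_num
      rw [h4] at h3
      exact h3
    have hdiv : 5 * n / q + 1 ≤ 161 * q ^ 4 := by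
      have h5 : n ≤ 32 * q ^ 5 := by
        calc n ≤ (q + 1) ^ 5 := hq1n.le
          _ ≤ (2 * q) ^ 5 := Nat.pow_le_pow_left (by omega) 5
          _ = 32 * q ^ 5 := by ring
      have h6 : 5 * n / q ≤ 160 * q ^ 4 := by
        apply Nat.div_le_of_le_mul
        calc 5 * n ≤ 5 * (32 * q ^ 5) := by omega
          _ = q * (160 * q ^ 4) := by ring
      have h7 : 1 ≤ q ^ 4 := Nat.one_le_pow _ _ (by omega)
      omega
    have hdiv' : ((5 * n / q + 1 : ℕ) : ℝ) ≤ 161 * B := by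
      calc ((5 * n / q + 1 : ℕ) : ℝ) ≤ ((161 * q ^ 4 : ℕ) : ℝ) := by exact_mod_cast hdiv
        _ = 161 * (q : ℝ) ^ 4 := by push_cast; ring
        _ ≤ 161 * B := by linarith
    have hl1 : ((Nat.log 2 q + 5 : ℕ) : ℝ) ≤ 5 * A := by
      have h8 : Nat.log 2 q ≤ Nat.log 2 n := by
        apply Nat.log_mono_right
        calc q ≤ q ^ 5 := Nat.le_self_pow (by norm_num) _
          _ ≤ n := hqn
      have h9 : (Nat.log 2 q : ℝ) ≤ Nat.log 2 n := by exact_mod_cast h8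
      have h10 := natlog_le n hn
      push_cast
      rw [hA]; linarith
    have hl2 : ((Nat.log 2 n + 1 : ℕ) : ℝ) ≤ 1.5 * A := by
      have h10 := natlog_le n hn
      push_cast
      rw [hA]; linarith
    have hw : (H355.wdim n q : ℝ) ≤ 30000 * (B * A ^ 2) := by
      have h11 : (H355.wdim n q : ℝ) = 2 + ((Nat.log 2 q + 5 : ℕ) : ℝ) *
          (24 * ((Nat.log 2 n + 1 : ℕ) : ℝ) * ((5 * n / q + 1 : ℕ) : ℝ)) := by
        rw [H355.wdim]
        simp only [Nat.cast_add, Nat.cast_mul, Nat.cast_ofNat]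
      rw [h11]
      calc 2 + ((Nat.log 2 q + 5 : ℕ) : ℝ) *
          (24 * ((Nat.log 2 n + 1 : ℕ) : ℝ) * ((5 * n / q + 1 : ℕ) : ℝ))
          ≤ 2 + (5 * A) * (24 * (1.5 * A) * (161 * B)) := by
            gcongr
        _ = 2 + 28980 * (B * A ^ 2) := by ring
        _ ≤ 30000 * (B * A ^ 2) := by linarith
    have hv : ((1152 * q ^ 4 : ℕ) : ℝ) ≤ 30000 * (B * A ^ 2) := by
      calc ((1152 * q ^ 4 : ℕ) : ℝ) = 1152 * (q : ℝ) ^ 4 := by push_cast; ring
        _ ≤ 1152 * B := by linarith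
        _ ≤ 30000 * (B * A ^ 2) := by nlinarith
    have hmax : ((max (alphaDim X) (omegaDim (X + X)) : ℕ) : ℝ) ≤ 30000 * (B * A ^ 2) := by
      rw [Nat.cast_max]
      apply max_le
      · calc (alphaDim X : ℝ) ≤ H355.wdim n q := by exact_mod_cast h1.le
          _ ≤ _ := hw
      · calc (omegaDim (X + X) : ℝ) ≤ ((1152 * q ^ 4 : ℕ) : ℝ) := by exact_mod_cast h2.le
          _ ≤ _ := hv
    calc ((max (alphaDim X) (omegaDim (X + X)) : ℕ) : ℝ) ≤ 30000 * (B * A ^ 2) := hmax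
      _ = _ := by ring

/-- For every `n ≥ 1` some `X ⊆ F_2^n` has
`max (α(X), ω(X+X)) ≤ 30000 * n^(4/5) * (1 + log n)^2`; in particular, for every `C > 0` and all
large `n` some `X ⊆ F_2^n` has both `α(X) < C n` and `ω(X+X) < C n`. -/
theorem result :
    (∀ n : ℕ, 1 ≤ n → ∃ X : Set (Fin n → ZMod 2),
      ((max (alphaDim X) (omegaDim (X + X)) : ℕ) : ℝ) ≤
        30000 * (n : ℝ) ^ (4 / 5 : ℝ) * (1 + Real.log n) ^ 2) ∧
    (∀ C : ℝ, 0 < C → ∃ n₀ : ℕ, ∀ n : ℕ, n₀ ≤ n → ∃ X : Set (Fin n → ZMod 2),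
      (alphaDim X : ℝ) < C * n ∧ (omegaDim (X + X) : ℝ) < C * n) := by
  refine ⟨part_one, ?_⟩
  intro C hC
  set K : ℝ := 13230000 / C with hK
  have hKpos : 0 < K := by positivity
  refine ⟨⌈K ^ 10⌉₊ + 2, ?_⟩
  intro n hn
  have hn1 : 1 ≤ n := by omega
  obtain ⟨X, hX⟩ := part_one n hn1
  refine ⟨X, ?_⟩
  have hnr : (1 : ℝ) ≤ n := by exact_mod_cast hn1
  have hnpos : (0 : ℝ) < n := by linarith
  have hKn : K ^ 10 < n := by
    have h1 : K ^ 10 ≤ (⌈K ^ 10⌉₊ : ℝ) := Nat.le_ceil _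
    have h2 : ((⌈K ^ 10⌉₊ + 2 : ℕ) : ℝ) ≤ n := by exact_mod_cast hn
    push_cast at h2
    linarith
  have hroot : K < (n : ℝ) ^ (1 / 10 : ℝ) := by
    have h1 : (K ^ 10) ^ (1 / 10 : ℝ) < (n : ℝ) ^ (1 / 10 : ℝ) :=
      Real.rpow_lt_rpow (by positivity) hKn (by norm_num)
    have h2 : (K ^ 10) ^ (1 / 10 : ℝ) = K := by
      rw [← Real.rpow_natCast K 10, ← Real.rpow_mul hKpos.le]
      norm_num
    rwa [h2] at h1
  have hlog : 1 + Real.log n ≤ 21 * (n : ℝ) ^ (1 / 20 : ℝ) := by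
    have h1 := Real.log_le_rpow_div (x := (n : ℝ)) hnpos.le (show (0 : ℝ) < 1 / 20 by norm_num)
    have h2 : (1 : ℝ) ≤ (n : ℝ) ^ (1 / 20 : ℝ) := Real.one_le_rpow hnr (by norm_num)
    have h3 : (n : ℝ) ^ (1 / 20 : ℝ) / (1 / 20) = 20 * (n : ℝ) ^ (1 / 20 : ℝ) := by ring
    rw [h3] at h1
    linarith
  have hlog0 : 0 ≤ 1 + Real.log n := by
    have := Real.log_nonneg hnr; linarith
  have hsq : (1 + Real.log n) ^ 2 ≤ 441 * (n : ℝ) ^ (1 / 10 : ℝ) := by
    calc (1 + Real.log n) ^ 2 ≤ (21 * (n : ℝ) ^ (1 / 20 : ℝ)) ^ 2 :=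
          pow_le_pow_left₀ hlog0 hlog 2
      _ = 441 * ((n : ℝ) ^ (1 / 20 : ℝ) * (n : ℝ) ^ (1 / 20 : ℝ)) := by ring
      _ = 441 * (n : ℝ) ^ (1 / 10 : ℝ) := by
          rw [← Real.rpow_add hnpos]; norm_num
  have hfinal : 30000 * (n : ℝ) ^ (4 / 5 : ℝ) * (1 + Real.log n) ^ 2 < C * n := by
    calc 30000 * (n : ℝ) ^ (4 / 5 : ℝ) * (1 + Real.log n) ^ 2
        ≤ 30000 * (n : ℝ) ^ (4 / 5 : ℝ) * (441 * (n : ℝ) ^ (1 / 10 : ℝ)) := by gcongr
      _ = 13230000 * ((n : ℝ) ^ (4 / 5 : ℝ) * (n : ℝ) ^ (1 / 10 : ℝ)) := by ring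
      _ = 13230000 * (n : ℝ) ^ (9 / 10 : ℝ) := by
          rw [← Real.rpow_add hnpos]; norm_num
      _ = C * K * (n : ℝ) ^ (9 / 10 : ℝ) := by rw [hK]; field_simp
      _ < C * (n : ℝ) ^ (1 / 10 : ℝ) * (n : ℝ) ^ (9 / 10 : ℝ) := by
          have : 0 < (n : ℝ) ^ (9 / 10 : ℝ) := Real.rpow_pos_of_pos hnpos _
          gcongr
      _ = C * n := by
          rw [mul_assoc, ← Real.rpow_add hnpos]; norm_num
  rw [Nat.cast_max] at hX
  have hXa := (le_max_left _ _).trans hX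
  have hXo := (le_max_right _ _).trans hX
  exact ⟨lt_of_le_of_lt hXa hfinal, lt_of_le_of_lt hXo hfinal⟩

end Pool.Agent.Results.MP_6a62c9_co.SublinearBoth
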